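import Mathlib

/-!
# Central limit theorem for laws on the integers with explicit characteristic functions
(package CLT of the project WN; not results)
-/

set_option autoImplicit false

open MeasureTheory ProbabilityTheory Filter Topology Finset

namespace Pool.Agent.Helper92.WN

/-- the scaled law -/
noncomputable def law (n : ℕ) (p : ℤ → ℝ) (σ : ℝ) : Measure ℝ :=
  ∑ h ∈ Finset.Icc (-(n : ℤ)) n, ENNReal.ofReal (p h) • Measure.dirac (Real.pi * h / σ)

theorem law_prob (n : ℕ) (p : ℤ → ℝ) (σ : ℝ) (hp : ∀ h, 0 ≤ p h)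
    (h1 : ∑ h ∈ Finset.Icc (-(n : ℤ)) n, p h = 1) : IsProbabilityMeasure (law n p σ) := by
  constructor
  unfold law
  rw [Measure.finsetSum_apply]
  simp only [Measure.smul_apply, measure_univ, smul_eq_mul, mul_one]
  rw [← ENNReal.ofReal_sum_of_nonneg (fun h _ => hp h), h1, ENNReal.ofReal_one]

theorem law_charFun (n : ℕ) (p : ℤ → ℝ) (σ : ℝ) (hp : ∀ h, 0 ≤ p h) (t : ℝ) :
    charFun (law n p σ) t = ∑ h ∈ Finset.Icc (-(n : ℤ)) n, (p h : ℂ) *
      Complex.exp (((t * Real.pi / σ : ℝ) : ℂ) * Complex.I) ^ h := by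
  rw [charFun_apply_real]
  unfold law
  have hint : ∀ h ∈ Finset.Icc (-(n : ℤ)) n, Integrable (fun x : ℝ => Complex.exp (t * x * Complex.I))
      (ENNReal.ofReal (p h) • Measure.dirac (Real.pi * h / σ)) := by
    intro h _
    refine Integrable.smul_measure ?_ ENNReal.ofReal_ne_top
    refine (integrable_const (1 : ℝ)).mono' (by fun_prop) (ae_of_all _ fun x => ?_)
    have : (t : ℂ) * x * Complex.I = ((t * x : ℝ) : ℂ) * Complex.I := by push_cast; ring
    rw [this, Complex.norm_exp_ofReal_mul_I]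
  rw [integral_finsetSum_measure hint]
  refine Finset.sum_congr rfl fun h _ => ?_
  rw [integral_smul_measure, integral_dirac, ENNReal.toReal_ofReal (hp h), ← Complex.exp_int_mul]
  rw [Complex.real_smul]
  congr 2
  push_cast
  ring

theorem law_real (n : ℕ) (p : ℤ → ℝ) (σ : ℝ) (hp : ∀ h, 0 ≤ p h) (hσ : 0 < σ) (x : ℝ) :
    (law n p σ).real (Set.Iic x) = ∑ h ∈ Finset.Icc (-(n : ℤ)) n,
      if Real.pi * (h : ℝ) ≤ x * σ then p h else 0 := by
  unfold law Measure.real
  rw [Measure.finsetSum_apply, ENNReal.toReal_sum]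
  · refine Finset.sum_congr rfl fun h _ => ?_
    rw [Measure.smul_apply, Measure.dirac_apply' _ measurableSet_Iic, smul_eq_mul]
    by_cases hh : Real.pi * (h : ℝ) ≤ x * σ
    · rw [if_pos hh, Set.indicator_of_mem (by rw [Set.mem_Iic, div_le_iff₀ hσ]; exact hh)]
      simp [hp h]
    · rw [if_neg hh, Set.indicator_of_notMem (by rw [Set.mem_Iic, div_le_iff₀ hσ]; exact hh)]
      simp
  · intro h _
    rw [Measure.smul_apply, smul_eq_mul]
    exact ENNReal.mul_ne_top ENNReal.ofReal_ne_top (measure_lt_top _ _).ne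

theorem clt_abs (P : ℕ → ℤ → ℝ) (hP : ∀ n h, 0 ≤ P n h)
    (h1 : ∀ n : ℕ, ∑ h ∈ Finset.Icc (-(n : ℤ)) n, P n h = 1) (σ : ℕ → ℝ)
    (hσ : ∀ n, 1 ≤ n → 0 < σ n)
    (hchar : ∀ t : ℝ, Tendsto (fun n : ℕ => ∑ h ∈ Finset.Icc (-(n : ℤ)) n, (P n h : ℂ) *
      Complex.exp (((t * Real.pi / σ n : ℝ) : ℂ) * Complex.I) ^ h) atTop
      (𝓝 (Complex.exp (((-(t ^ 2) / 2 : ℝ) : ℂ))))) (x : ℝ) :
    Tendsto (fun n : ℕ => ∑ h ∈ Finset.Icc (-(n : ℤ)) n,
      if Real.pi * (h : ℝ) ≤ x * σ n then P n h else 0) atTop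
      (𝓝 ((gaussianReal 0 1).real (Set.Iic x))) := by
  let μ : ℕ → ProbabilityMeasure ℝ := fun n =>
    ⟨law n (P n) (σ n), law_prob n (P n) (σ n) (hP n) (h1 n)⟩
  let μ0 : ProbabilityMeasure ℝ := ⟨gaussianReal 0 1, inferInstance⟩
  have hlim : Tendsto μ atTop (𝓝 μ0) := by
    apply ProbabilityMeasure.tendsto_of_tendsto_charFun
    intro t
    have e1 : ∀ n, charFun ((μ n : ProbabilityMeasure ℝ) : Measure ℝ) t =
        ∑ h ∈ Finset.Icc (-(n : ℤ)) n, (P n h : ℂ) *
          Complex.exp (((t * Real.pi / σ n : ℝ) : ℂ) * Complex.I) ^ h :=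
      fun n => law_charFun n (P n) (σ n) (hP n) t
    have e2 : charFun ((μ0 : ProbabilityMeasure ℝ) : Measure ℝ) t =
        Complex.exp (((-(t ^ 2) / 2 : ℝ) : ℂ)) := by
      change charFun (gaussianReal 0 1) t = _
      rw [charFun_gaussianReal]
      congr 1
      push_cast
      ring
    rw [e2]
    simp only [e1]
    exact hchar t
  have hfr : (μ0 : Measure ℝ) (frontier (Set.Iic x)) = 0 := by
    rw [frontier_Iic]
    change gaussianReal 0 1 {x} = 0
    have hns := nullSingletonClass_gaussianReal (μ := 0) (v := 1) one_ne_zero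
    exact measure_singleton x
  have h2 := ProbabilityMeasure.tendsto_measure_of_null_frontier_of_tendsto' hlim hfr
  have h3 : Tendsto (fun n => ((μ n : Measure ℝ) (Set.Iic x)).toReal) atTop
      (𝓝 (((μ0 : Measure ℝ) (Set.Iic x)).toReal)) :=
    (ENNReal.tendsto_toReal (measure_ne_top _ _)).comp h2
  refine (Tendsto.congr' ?_ h3)
  filter_upwards [eventually_ge_atTop 1] with n hn
  exact law_real n (P n) (σ n) (hP n) (hσ n hn) x

/-! ## the product -/

theorem prod_bounds {ι : Type} (s : Finset ι) (t : ι → ℝ) (δ : ℝ) (hδ : δ < 1)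
    (h0 : ∀ i ∈ s, 0 ≤ t i) (h1 : ∀ i ∈ s, t i ≤ δ) :
    Real.exp (-(∑ i ∈ s, t i) / (1 - δ)) ≤ ∏ i ∈ s, (1 - t i) ∧
      ∏ i ∈ s, (1 - t i) ≤ Real.exp (-(∑ i ∈ s, t i)) := by
  constructor
  · rw [neg_div, Finset.sum_div, ← Finset.sum_neg_distrib, Real.exp_sum]
    refine Finset.prod_le_prod (fun i _ => (Real.exp_pos _).le) fun i hi => ?_
    have a1 : t i < 1 := lt_of_le_of_lt (h1 i hi) hδ
    have a2 : 0 < 1 - t i := by linarith
    have a3 : t i / (1 - t i) ≤ t i / (1 - δ) :=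
      div_le_div_of_nonneg_left (h0 i hi) (by linarith) (by linarith [h1 i hi])
    have a4 : 1 / (1 - t i) ≤ Real.exp (t i / (1 - t i)) := by
      have := Real.add_one_le_exp (t i / (1 - t i))
      have e : t i / (1 - t i) + 1 = 1 / (1 - t i) := by field_simp; ring
      linarith
    have a5 : 1 / (1 - t i) ≤ Real.exp (t i / (1 - δ)) := a4.trans (Real.exp_le_exp.2 a3)
    rw [Real.exp_neg]
    rw [one_div] at a5
    have a6 := inv_anti₀ (by positivity : 0 < (1 - t i)⁻¹) a5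
    rwa [inv_inv] at a6
  · rw [← Finset.sum_neg_distrib, Real.exp_sum]
    refine Finset.prod_le_prod (fun i hi => ?_) fun i hi => ?_
    · linarith [h1 i hi]
    · have := Real.add_one_le_exp (-(t i))
      linarith

theorem log_tendsto : Tendsto (fun n : ℕ => Real.log (2 * n + 1)) atTop atTop := by
  refine Real.tendsto_log_atTop.comp ?_
  refine tendsto_atTop_add_const_right _ _ ?_
  exact (tendsto_natCast_atTop_atTop).const_mul_atTop (by norm_num)

/-- the exponent -/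
theorem exponent (s : ℝ) (A : ℕ → ℝ) (C : ℝ)
    (hA : ∀ n : ℕ, 1 ≤ n → |A n / 2 - 3 / (2 * Real.pi ^ 2) * Real.log (2 * n + 1)| ≤ C) :
    Tendsto (fun n : ℕ => (1 - Real.cos (s * Real.pi / Real.sqrt (3 / 2 * Real.log (2 * n + 1)))) *
      A n) atTop (𝓝 (s ^ 2)) ∧
    Tendsto (fun n : ℕ => (1 - Real.cos (s * Real.pi / Real.sqrt (3 / 2 * Real.log (2 * n + 1)))) / 2)
      atTop (𝓝 0) := by
  have hC : 0 ≤ C := (abs_nonneg _).trans (hA 1 le_rfl)
  set ℓ : ℕ → ℝ := fun n => Real.log (2 * n + 1) with hℓ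
  have hℓt : Tendsto ℓ atTop atTop := log_tendsto
  set K : ℝ := s ^ 2 * Real.pi ^ 2 * (2 / 3) with hK
  have hK0 : 0 ≤ K := by positivity
  set θ : ℕ → ℝ := fun n => s * Real.pi / Real.sqrt (3 / 2 * ℓ n) with hθ
  have hθ2 : ∀ n, 0 < ℓ n → θ n ^ 2 = K / ℓ n := by
    intro n hn
    simp only [hθ, hK]
    rw [div_pow, Real.sq_sqrt (by positivity)]
    field_simp
  have hinv : Tendsto (fun n => K / ℓ n) atTop (𝓝 0) := hℓt.const_div_atTop K
  have hpos : ∀ᶠ n in atTop, 0 < ℓ n := hℓt.eventually_gt_atTop 0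
  have hKl : ∀ᶠ n in atTop, K ≤ ℓ n := hℓt.eventually_ge_atTop K
  constructor
  · rw [tendsto_iff_norm_sub_tendsto_zero]
    have hE : Tendsto (fun n => K ^ 2 * (5 / 96) * (2 * (3 / (2 * Real.pi ^ 2))) / ℓ n + K * C / ℓ n)
        atTop (𝓝 0) := by
      have := (hℓt.const_div_atTop (K ^ 2 * (5 / 96) * (2 * (3 / (2 * Real.pi ^ 2))))).add
        (hℓt.const_div_atTop (K * C))
      simpa using this
    refine squeeze_zero' (Eventually.of_forall fun n => norm_nonneg _) ?_ hE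
    filter_upwards [hpos, hKl, eventually_ge_atTop 1] with n hn hKn hn1
    have hθn := hθ2 n hn
    have hθ1 : |θ n| ≤ 1 := by
      rw [← sq_le_one_iff_abs_le_one, hθn, div_le_one hn]; exact hKn
    have hcos := Real.cos_bound hθ1
    have hcos2 := Real.one_sub_sq_div_two_le_cos (x := θ n)
    have hcos3 := Real.cos_le_one (θ n)
    have hA1 := hA n hn1
    set c : ℝ := 3 / (2 * Real.pi ^ 2) with hc
    have hc0 : 0 < c := by positivity
    have e4 : |θ n| ^ 4 = (K / ℓ n) ^ 2 := by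
      rw [← hθn]
      rw [show |θ n| ^ 4 = (|θ n| ^ 2) ^ 2 by ring, sq_abs]
    rw [e4] at hcos
    have e5 : s ^ 2 = θ n ^ 2 / 2 * (2 * c * ℓ n) := by
      rw [hθn, hK, hc]
      field_simp
    rw [Real.norm_eq_abs]
    change |(1 - Real.cos (θ n)) * A n - s ^ 2| ≤ _
    have e6 : (1 - Real.cos (θ n)) * A n - s ^ 2 =
        (1 - Real.cos (θ n) - θ n ^ 2 / 2) * (2 * c * ℓ n) +
          (1 - Real.cos (θ n)) * (2 * (A n / 2 - c * ℓ n)) := by
      rw [e5]; ring
    rw [e6]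
    refine (abs_add_le _ _).trans (add_le_add ?_ ?_)
    · rw [abs_mul, abs_of_pos (by positivity : 0 < 2 * c * ℓ n)]
      have e7 : |1 - Real.cos (θ n) - θ n ^ 2 / 2| ≤ (K / ℓ n) ^ 2 * (5 / 96) := by
        rw [abs_sub_comm] at hcos
        refine le_trans (le_of_eq ?_) hcos
        congr 1; ring
      refine (mul_le_mul_of_nonneg_right e7 (by positivity)).trans (le_of_eq ?_)
      field_simp
    · rw [abs_mul, abs_of_nonneg (by linarith : 0 ≤ 1 - Real.cos (θ n)), abs_mul,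
        abs_of_pos (by norm_num : (0 : ℝ) < 2)]
      have e8 : 1 - Real.cos (θ n) ≤ K / ℓ n / 2 := by rw [← hθn]; linarith
      calc (1 - Real.cos (θ n)) * (2 * |A n / 2 - c * ℓ n|) ≤ (K / ℓ n / 2) * (2 * C) := by
            refine mul_le_mul e8 ?_ (by positivity) (by positivity)
            exact mul_le_mul_of_nonneg_left hA1 (by norm_num)
        _ = K * C / ℓ n := by ring
  · refine squeeze_zero' (Eventually.of_forall fun n => ?_) ?_ hinv
    · have := Real.cos_le_one (s * Real.pi / Real.sqrt (3 / 2 * ℓ n))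
      simp only [hℓ] at this
      linarith
    · filter_upwards [hpos] with n hn
      have hθn := hθ2 n hn
      have hcos2 := Real.one_sub_sq_div_two_le_cos (x := θ n)
      change (1 - Real.cos (θ n)) / 2 ≤ K / ℓ n
      rw [← hθn]
      nlinarith [sq_nonneg (θ n)]

/-- convergence of the products -/
theorem prod_tendsto (s : ℝ) (C : ℝ) (a : (n : ℕ) → Fin (2 * n) → ℝ)
    (ha0 : ∀ n i, 0 ≤ a n i) (ha1 : ∀ n i, a n i ≤ 1 / 2)
    (hA : ∀ n : ℕ, 1 ≤ n → |(∑ i, a n i) / 2 - 3 / (2 * Real.pi ^ 2) * Real.log (2 * n + 1)| ≤ C) :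
    Tendsto (fun n : ℕ => ∏ i, (1 - (1 - Real.cos (s * Real.pi /
      Real.sqrt (3 / 2 * Real.log (2 * n + 1)))) * a n i)) atTop (𝓝 (Real.exp (-(s ^ 2)))) := by
  obtain ⟨h1, h2⟩ := exponent s (fun n => ∑ i, a n i) C hA
  set κ : ℕ → ℝ := fun n => 1 - Real.cos (s * Real.pi /
      Real.sqrt (3 / 2 * Real.log (2 * n + 1))) with hκ
  have hκ0 : ∀ n, 0 ≤ κ n := fun n => by
    simp only [hκ]
    linarith [Real.cos_le_one (s * Real.pi / Real.sqrt (3 / 2 * Real.log (2 * n + 1)))]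
  have hb : ∀ᶠ n in atTop, Real.exp (-(κ n * ∑ i, a n i) / (1 - κ n / 2)) ≤ ∏ i, (1 - κ n * a n i) ∧
      ∏ i, (1 - κ n * a n i) ≤ Real.exp (-(κ n * ∑ i, a n i)) := by
    filter_upwards [h2.eventually_lt_const (by norm_num : (0 : ℝ) < 1)] with n hn
    have := prod_bounds Finset.univ (fun i => κ n * a n i) (κ n / 2) hn
      (fun i _ => mul_nonneg (hκ0 n) (ha0 n i))
      (fun i _ => by nlinarith [hκ0 n, ha1 n i])
    rw [← Finset.mul_sum] at this
    exact this
  have hlow : Tendsto (fun n => Real.exp (-(κ n * ∑ i, a n i) / (1 - κ n / 2))) atTop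
      (𝓝 (Real.exp (-(s ^ 2)))) := by
    refine (Real.continuous_exp.tendsto _).comp ?_
    have h3 : Tendsto (fun n => 1 - κ n / 2) atTop (𝓝 (1 - 0)) := tendsto_const_nhds.sub h2
    have h4 := h1.neg.div h3 (by norm_num)
    rw [sub_zero, div_one] at h4
    exact h4
  have hup : Tendsto (fun n => Real.exp (-(κ n * ∑ i, a n i))) atTop
      (𝓝 (Real.exp (-(s ^ 2)))) := (Real.continuous_exp.tendsto _).comp h1.neg
  exact tendsto_of_tendsto_of_tendsto_of_le_of_le' hlow hup (hb.mono fun n h => h.1)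
    (hb.mono fun n h => h.2)

end Pool.Agent.Helper92.WN
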