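import Pool.Agent.Helper21.WN.Stm2
import Pool.Agent.Helper92.WN.CLTa

/-!
# WN: the central limit theorem (package CLT)
-/

set_option autoImplicit false

open MeasureTheory ProbabilityTheory Filter Topology Finset

namespace Pool.Agent.Helper92.WN

open Pool.Agent.Helper21.WN Pool.Agent

theorem t_CLT : S_L3 → S_L4 → S_CLT := by
  rintro ⟨C, hC⟩ h4 P hP hgen x
  choose u hu using fun n : ℕ => H160R2.ML.t_EG (2 * n) 2
  have hD0 : ∀ n : ℕ, H160R2.ML.Dl (2 * n) 2 1 ≠ 0 := by
    intro n
    obtain ⟨D, hD, hDe⟩ := (h4 n (u n) (hu n)).2.2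
    rw [hDe]
    exact_mod_cast hD.ne'
  have h1 : ∀ n : ℕ, ∑ h ∈ Finset.Icc (-(n : ℤ)) n, P n h = 1 := by
    intro n
    have := hgen n 1 one_ne_zero
    simp only [one_zpow, mul_one, one_pow, inv_one, one_mul] at this
    rw [div_self (hD0 n)] at this
    exact_mod_cast this
  refine clt_abs P hP h1 (fun n => Real.sqrt (3 / 2 * Real.log (2 * n + 1))) ?_ ?_ x
  · intro n hn
    apply Real.sqrt_pos.2
    have : 0 < Real.log (2 * (n : ℝ) + 1) := by
      apply Real.log_pos
      have : (1 : ℝ) ≤ n := by exact_mod_cast hn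
      linarith
    positivity
  · intro t
    choose y hy0 hy1 hy2 using fun n : ℕ =>
      (h4 n (u n) (hu n)).2.1 (t * Real.pi / Real.sqrt (3 / 2 * Real.log (2 * n + 1)))
    have hprod := prod_tendsto t C (fun n i => 1 / (Real.cosh (u n i) + 1))
      (fun n i => by
        have := Real.cosh_pos (u n i)
        positivity)
      (fun n i => by
        have := Real.one_le_cosh (u n i)
        rw [div_le_div_iff₀ (by linarith) (by norm_num)]
        linarith)
      (fun n hn => by
        have := hC n (u n) hn (hu n)
        have e : (∑ i, 1 / (Real.cosh (u n i) + 1)) / 2 = ∑ i, 1 / (2 * (Real.cosh (u n i) + 1)) := by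
          rw [Finset.sum_div]
          refine Finset.sum_congr rfl fun i _ => ?_
          rw [div_div, mul_comm]
        rw [e]
        exact this)
    have hy : Tendsto y atTop (𝓝 (Real.exp (-(t ^ 2) / 2))) := by
      have h5 : Tendsto (fun n => y n ^ 2) atTop (𝓝 (Real.exp (-(t ^ 2)))) := by
        refine hprod.congr fun n => ?_
        rw [hy2 n]
        refine Finset.prod_congr rfl fun i _ => ?_
        rw [mul_one_div]
      have h6 := (Real.continuous_sqrt.tendsto _).comp h5
      have e7 : Real.sqrt (Real.exp (-(t ^ 2))) = Real.exp (-(t ^ 2) / 2) := by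
        rw [Real.exp_half]
      rw [e7] at h6
      refine h6.congr fun n => ?_
      simp only [Function.comp]
      exact Real.sqrt_sq (hy0 n)
    have h8 := (Complex.continuous_ofReal.tendsto _).comp hy
    rw [Complex.ofReal_exp] at h8
    refine h8.congr fun n => ?_
    simp only [Function.comp]
    rw [hgen n _ (Complex.exp_ne_zero _), hy1 n, mul_comm, mul_div_assoc, div_self (hD0 n), mul_one]

end Pool.Agent.Helper92.WN
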