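import Pool.Agent.Helper21.WN.Stm2

/-!
# WN: comparison of Laurent polynomials (package LAU)
-/

set_option autoImplicit false

open Finset Polynomial

namespace Pool.Agent.Helper92.WN

open Pool.Agent.Helper21.WN Pool.Agent

theorem t_LAU : S_LAU := by
  classical
  intro n Q S c hS hw
  obtain ⟨u, hu⟩ := H160R2.ML.t_EG (2 * n) 2
  set p : ℂ[X] := ∏ i, (1 + X * C (Real.exp (u i) : ℂ)) with hp
  have hpe : ∀ ω : ℂ, p.eval ω = H160R2.ML.Dl (2 * n) 2 ω := by
    intro ω
    rw [hu.2.2 ω, hp, eval_prod]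
    refine Finset.prod_congr rfl fun i _ => ?_
    rw [eval_add, eval_one, eval_mul, eval_X, eval_C]
  have hpd : p.natDegree < 2 * n + 1 := by
    rw [Nat.lt_succ_iff, hp]
    refine (natDegree_prod_le _ _).trans ?_
    refine (Finset.sum_le_card_nsmul _ _ 1 fun i _ => ?_).trans (by simp)
    refine (natDegree_add_le _ _).trans (max_le (by simp) ?_)
    exact (natDegree_mul_le).trans (by simp)
  -- the polynomials
  set M : ℕ := n + ∑ h ∈ S, h.natAbs with hM
  have hSM : ∀ h ∈ S, 0 ≤ (M : ℤ) + h := by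
    intro h hh
    have h1 : h.natAbs ≤ ∑ h ∈ S, h.natAbs :=
      Finset.single_le_sum (f := fun h : ℤ => h.natAbs) (fun _ _ => Nat.zero_le _) hh
    omega
  set A : ℂ[X] := ∑ h ∈ S, C (Q h : ℂ) * X ^ ((M : ℤ) + h).toNat with hA
  set B : ℂ[X] := ∑ k ∈ range (2 * n + 1), C (c * p.coeff k) * X ^ (M + n - k) with hB
  have hAB : A = B := by
    refine Polynomial.eq_of_infinite_eval_eq _ _ (Set.Infinite.mono (s := {w : ℂ | w ≠ 0}) ?_ ?_)
    · intro w hw0
      have hw0' : w ≠ 0 := hw0
      change A.eval w = B.eval w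
      have e1 : A.eval w = w ^ M * ∑ h ∈ S, (Q h : ℂ) * w ^ h := by
        rw [hA, eval_finsetSum, Finset.mul_sum]
        refine Finset.sum_congr rfl fun h hh => ?_
        rw [eval_mul, eval_C, eval_pow, eval_X, ← zpow_natCast, Int.toNat_of_nonneg (hSM h hh),
          zpow_add₀ hw0', zpow_natCast]
        ring
      have e2 : B.eval w = w ^ M * (c * (w ^ n * H160R2.ML.Dl (2 * n) 2 w⁻¹)) := by
        rw [← hpe, eval_eq_sum_range' hpd, hB, eval_finsetSum, Finset.mul_sum, Finset.mul_sum,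
          Finset.mul_sum]
        refine Finset.sum_congr rfl fun k hk => ?_
        have hk' : k ≤ M + n := by
          have := Finset.mem_range.1 hk
          omega
        rw [eval_mul, eval_C, eval_pow, eval_X, pow_sub₀ _ hw0' hk', pow_add, inv_pow]
        ring
      rw [e1, e2, hw w hw0']
    · exact Set.Infinite.mono (s := (Set.univ : Set ℂ) \ {0}) (fun x hx => hx.2)
        (Set.infinite_univ.sdiff (Set.finite_singleton 0))
  have hcoef : ∀ h : ℤ, 0 ≤ (M : ℤ) + h → A.coeff ((M : ℤ) + h).toNat = Q h := by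
    intro h hh
    rw [hA, finsetSum_coeff]
    by_cases hhS : h ∈ S
    · rw [Finset.sum_eq_single_of_mem h hhS]
      · simp
      · intro b hb hbh
        rw [coeff_C_mul, coeff_X_pow, if_neg, mul_zero]
        have := hSM b hb
        omega
    · rw [hS h hhS, Finset.sum_eq_zero]
      · simp
      · intro b hb
        have hbh : b ≠ h := fun e => hhS (e ▸ hb)
        rw [coeff_C_mul, coeff_X_pow, if_neg, mul_zero]
        have := hSM b hb
        omega
  have hz : ∀ h : ℤ, (n : ℤ) < |h| → Q h = 0 := by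
    intro h hh
    by_cases hMh : 0 ≤ (M : ℤ) + h
    · have h1 := hcoef h hMh
      rw [hAB, hB, finsetSum_coeff, Finset.sum_eq_zero] at h1
      · exact_mod_cast h1.symm
      · intro k hk
        rw [coeff_C_mul, coeff_X_pow, if_neg, mul_zero]
        have hk' := Finset.mem_range.1 hk
        intro e
        rcases abs_cases h with ⟨h2, _⟩ | ⟨h2, _⟩ <;> omega
    · exact hS h fun hhS => hMh (hSM h hhS)
  refine ⟨hz, fun w hw0 => ?_⟩
  rw [← hw w hw0]
  have e1 : ∑ h ∈ Finset.Icc (-(n : ℤ)) n, (Q h : ℂ) * w ^ h =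
      ∑ h ∈ Finset.Icc (-(n : ℤ)) n ∪ S, (Q h : ℂ) * w ^ h := by
    refine Finset.sum_subset Finset.subset_union_left fun h _ hh => ?_
    rw [hz h]
    · simp
    · rw [Finset.mem_Icc] at hh
      rcases abs_cases h with ⟨h2, _⟩ | ⟨h2, _⟩ <;> omega
  have e2 : ∑ h ∈ S, (Q h : ℂ) * w ^ h =
      ∑ h ∈ Finset.Icc (-(n : ℤ)) n ∪ S, (Q h : ℂ) * w ^ h := by
    refine Finset.sum_subset Finset.subset_union_right fun h _ hh => ?_
    rw [hS h hh]
    simp
  rw [e1, e2]

end Pool.Agent.Helper92.WN
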